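import Pool.Agent.H442R3.MPar.Main
import Pool.Agent.NPC.Dec

/-!
# Matroid matching in hypergraphic matroids is solvable in polynomial time

The problem reduces to the matroid parity problem for explicitly given lines in `F^n`, where `F` is a
prime field with more than polynomially many elements: for every hyperedge `e` take a new
coordinate `t_e`, for every two different vertices `u, v` of `e` the line spanned by `1_u - 1_v` and
`t_e`, and for every pair `{e, f}` of the given partition the line spanned by `t_e` and `t_f`.  The
maximum number of independent lines is the number of pairs plus the maximum number of pairs of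
hyperedges whose union is independent in the hypergraphic matroid, because a hyperforest can be
trimmed to a forest.

The matroid parity problem for lines `L_i = <a_i, b_i>` is solved by a local search.  For a vector
`x` of coefficients let `A(x)` be the sum of the alternating matrices `x_i (a_i ∧ b_i)`.  The rank of
`A(x)` is at most twice the maximum number of independent lines.  We start with `x = 0` and change
one or two coordinates of `x` as long as this decreases the sum, over all pairs `(j, k)` of lines
(including an empty line), of the nullities of the bordered matrices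
`[[A(x), C_k], [C_j^T, 0]]`, where `C_j = (a_j, b_j)`.  We prove that at a local minimum the rank of
`A(x)` is twice the maximum number of independent lines.
-/

namespace Pool.Agent.Results.MP_0c5eb8_lc.HypergraphicMatchingInP

open Pool.Agent.NPC Pool.Agent.H442R3.MPar

/-- An instance: the list of the vertices of a hypergraph, and the list of the pairs into which its
hyperedges are partitioned; every hyperedge is given by the list of its vertices.  (The hyperedges
are the elements `(i, false)` and `(i, true)`, the first and the second member of the `i`-th pair, so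
that repeated hyperedges are allowed.) -/
abbrev Inst : Type := List ℕ × List (List ℕ × List ℕ)

/-- the set of vertices of the hyperedge `(i, s)` -/
def hyperedge (I : Inst) (x : ℕ × Bool) : Finset ℕ :=
  match x with
  | (i, false) => (I.2.getD i ([], [])).1.toFinset
  | (i, true) => (I.2.getD i ([], [])).2.toFinset

/-- Independence in the hypergraphic matroid: `|⋃ X| ≥ |X| + 1` for every nonempty subfamily `X`. -/
def Independent (I : Inst) (S : Finset (ℕ × Bool)) : Prop :=
  ∀ X ⊆ S, X.Nonempty → X.card + 1 ≤ (X.biUnion (hyperedge I)).card

/-- `M` is a set of (indices of) pairs, and the union of these pairs is independent. -/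
def IsMatching (I : Inst) (M : Finset ℕ) : Prop :=
  (∀ i ∈ M, i < I.2.length) ∧ Independent I (M ×ˢ {false, true})

/-- Well-formed instances: the vertices are `0, …, |V| - 1`, and the hyperedges are nonempty sets of
vertices. -/
def WellFormed (I : Inst) : Prop :=
  (∀ v, v ∈ I.1 ↔ v < I.1.length) ∧
    ∀ e ∈ I.2, (e.1 ≠ [] ∧ ∀ v ∈ e.1, v ∈ I.1) ∧ (e.2 ≠ [] ∧ ∀ v ∈ e.2, v ∈ I.1)

/-- The size `|V| + ∑ |e|`. -/
def inputSize (I : Inst) : ℕ :=
  I.1.length + (I.2.map (fun e => e.1.length + e.2.length)).sum

theorem isMatching_iff (I : Inst) (M : Finset ℕ) : IsMatching I M ↔ IsMatch I.2 M := by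
  have h1 : hyperedge I = edgeOf I.2 := by
    funext x
    obtain ⟨i, s⟩ := x
    cases s <;> rfl
  have h2 : (Finset.univ : Finset Bool) = {false, true} := by
    ext s
    cases s <;> simp
  rw [IsMatching, IsMatch, Independent, HypIndep, h1, h2]
  constructor
  · rintro ⟨h, h'⟩
    exact ⟨fun i hi => Finset.mem_range.2 (h i hi), h'⟩
  · rintro ⟨h, h'⟩
    exact ⟨fun i hi => Finset.mem_range.1 (h hi), h'⟩

/-- the length of the encoding is polynomial in `|V| + ∑ |e|` -/
theorem size_bound : ∃ q : Polynomial ℕ, ∀ I : Inst, WellFormed I →
    (bits I).length ≤ q.eval (inputSize I) := by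
  refine ⟨(Polynomial.X * (4 * Polynomial.X + 2) + 1) +
    (Polynomial.X * (2 * (Polynomial.X * (4 * Polynomial.X + 2) + 1) + 2) + 1) + 1, ?_⟩
  rintro ⟨V, B⟩ ⟨hV, hB⟩
  set S := inputSize (V, B) with hS
  have hVS : V.length ≤ S := Nat.le_add_right _ _
  have hv : ∀ v ∈ V, sz v ≤ 4 * S + 1 := by
    intro v hv
    have h1 := (hV v).1 hv
    have h2 := sz_nat_le v
    have h3 : v.size ≤ v := Nat.size_le.2 Nat.lt_two_pow_self
    simp only at h1
    omega
  have hlist : ∀ l : List ℕ, (∀ v ∈ l, v ∈ V) → l.length ≤ S → sz l ≤ S * (4 * S + 2) + 1 := by
    intro l hl hlen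
    have h1 := sz_le_length_mul l (4 * S + 1) (fun v h => hv v (hl v h))
    have h2 := Nat.mul_le_mul_right (4 * S + 1 + 1) hlen
    have h3 : S * (4 * S + 1 + 1) = S * (4 * S + 2) := rfl
    omega
  have hmem : ∀ e ∈ B, e.1.length + e.2.length ≤ S := by
    intro e he
    have h1 : e.1.length + e.2.length ≤ (B.map (fun e => e.1.length + e.2.length)).sum :=
      List.single_le_sum (by simp) _ (List.mem_map.2 ⟨e, he, rfl⟩)
    rw [hS, inputSize]
    simp only
    omega
  have hBlen : B.length ≤ S := by
    have h1 : B.length ≤ (B.map (fun e => e.1.length + e.2.length)).sum := by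
      have h2 : ∀ l : List (List ℕ × List ℕ), (∀ e ∈ l, e.1 ≠ []) →
          l.length ≤ (l.map (fun e => e.1.length + e.2.length)).sum := by
        intro l
        induction l with
        | nil => simp
        | cons a l ih =>
          intro h
          have h3 := ih (fun e he => h e (List.mem_cons_of_mem _ he))
          have h4 := List.length_pos_of_ne_nil (h a List.mem_cons_self)
          rw [List.length_cons, List.map_cons, List.sum_cons]
          omega
      exact h2 B (fun e he => (hB e he).1.1)
    rw [hS, inputSize]
    simp only
    omega
  have hBs : sz B ≤ S * (2 * (S * (4 * S + 2) + 1) + 2) + 1 := by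
    have h1 := sz_le_length_mul B (2 * (S * (4 * S + 2) + 1) + 1) (by
      rintro ⟨e, f⟩ he
      have h2 := hmem _ he
      have h3 := hB _ he
      simp only at h2 h3
      have h4 := hlist e h3.1.2 (by omega)
      have h5 := hlist f h3.2.2 (by omega)
      rw [sz_pair]
      omega)
    have h2 := Nat.mul_le_mul_right (2 * (S * (4 * S + 2) + 1) + 1 + 1) hBlen
    refine h1.trans ?_
    have h3 : S * (2 * (S * (4 * S + 2) + 1) + 1 + 1) = S * (2 * (S * (4 * S + 2) + 1) + 2) := rfl
    omega
  have hVs := hlist V (fun v h => h) hVS
  rw [bits_length, sz_pair]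
  simp only [Polynomial.eval_add, Polynomial.eval_mul, Polynomial.eval_X, Polynomial.eval_one,
    Polynomial.eval_ofNat]
  omega

/-- **Matroid matching in hypergraphic matroids is solvable in polynomial time.**  There is a
polynomial-time computable function which maps (the encoding of) every instance to (the encoding of)
the maximum number of pairs whose union is independent in the hypergraphic matroid; and the length of
the encoding is bounded by a polynomial in `|V| + ∑ |e|`. -/
theorem result :
    (∃ f : List Bool → List Bool, PolyTime f ∧ ∀ I : Inst, ∃ k : ℕ,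
      IsGreatest {k | ∃ M, IsMatching I M ∧ M.card = k} k ∧ f (bits I) = bits k) ∧
    (∃ q : Polynomial ℕ, ∀ I : Inst, WellFormed I → (bits I).length ≤ q.eval (inputSize I)) := by
  refine ⟨⟨fun x => bits ((unbits Inst x).elim 0 (fun I => nuF I.2)), ?_, fun I => ?_⟩, size_bound⟩
  · apply polyTime_bits
    refine NPC.Poly.optElim (o := fun x => unbits Inst x) (h := fun _ I => nuF I.2) poly_unbits
      (NPC.Poly.const 0) ?_
    exact poly_nuF (NPC.Poly.snd (NPC.Poly.snd NPC.Poly.id))
  · refine ⟨nuF I.2, ?_, ?_⟩
    · simp only [isMatching_iff]
      exact nuF_correct I.2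
    · simp only [unbits_bits, Option.elim]

end Pool.Agent.Results.MP_0c5eb8_lc.HypergraphicMatchingInP
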